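import Pool.Agent.Run7.h575.HD.C6

/-!
# Normal subgroups of the Hamiltonian homeomorphisms of the ball have index one or continuum

`HamHomeo n` (`Pool/Agent/R773/HN/Defs.lean`) is the group of the frozen statement S13311: the
compactly supported Hamiltonian homeomorphisms of the open unit ball of `ℝ^{2n}`. Definitions:
`Pool/Agent/Run7/h575/HD/Defs.lean`.
`IsAnalyticIn X`: the set `X` of elements of the group is an analytic (Suslin) subset of the
space of continuous maps, with the topology of locally uniform convergence; for instance `X` is
countable, or Borel, or it is the set of all commutators.

Proof. Suppose that the normal closure `N` of an analytic set is not the whole group. It is a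
countable union of analytic sets of words. By fragmentation of smooth Hamiltonian diffeomorphisms
there is a compact `K` such that elements `φ_k` of the Polish group `G(K)` outside of `N` converge to
`1`; if they converge fast enough, then all the products of subsequences converge, which gives
a continuous map from the Cantor space to `G(K)`. Two points of the Cantor space which differ in
one coordinate are mapped to different cosets of `N`. By the property of Baire of analytic sets the
relation to be in the same coset is meagre, and by the theorem of Mycielski there is a perfect
set of cosets. The smallest nontrivial normal subgroup is the one of `SmallestNormalSubgroup.lean`.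
-/

set_option autoImplicit false

open Run7.h575.HD
open Pool.Agent.R773.HN (HamHomeo)

namespace Pool.Agent.Results.MP_68f289_gt.IndexDichotomy

/-- Let `G = HamHomeo n` be the group of compactly supported Hamiltonian homeomorphisms of the open
unit ball of `ℝ^{2n}`.

* The normal subgroup generated by an analytic subset of `G`, in particular every analytic normal
  subgroup, and every normal subgroup which is generated, as a normal subgroup, by countably many
  elements, is either `G` or has index at least the cardinality of the continuum.
* `G` is perfect or its abelianization has at least the cardinality of the continuum.
* For `n ≥ 1`: `G` is simple or its smallest nontrivial normal subgroup (a simple group) has index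
  at least the cardinality of the continuum. -/
theorem result (n : ℕ) :
    (∀ X : Set (HamHomeo n), IsAnalyticIn X →
      Subgroup.normalClosure X = ⊤ ∨ LargeIndex (Subgroup.normalClosure X)) ∧
    (∀ X : Set (HamHomeo n), X.Countable → IsAnalyticIn X) ∧
    (commutator (HamHomeo n) = ⊤ ∨ LargeIndex (commutator (HamHomeo n))) ∧
    (0 < n → IsSimpleGroup (HamHomeo n) ∨
      ∃ S : Subgroup (HamHomeo n), IsSmallestNormal S ∧ LargeIndex S) := by
  refine ⟨fun X hX => dichotomy hX, fun X hX => analyticIn_countable hX, dichotomy_comm,
    fun hn => ?_⟩
  rcases dichotomy_simple hn with h | ⟨S, h1, h2, h3, h4⟩
  · exact Or.inl h
  · exact Or.inr ⟨S, ⟨h1, h2, h3⟩, h4⟩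

end Pool.Agent.Results.MP_68f289_gt.IndexDichotomy
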