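import Pool.Agent.Run7.h575.HD.C9

/-!
# If the group of Hamiltonian homeomorphisms of the ball is simple, it is uniformly simple

`HamHomeo n` (`Pool/Agent/R773/HN/Defs.lean`): the group of the frozen statement S13311, the
compactly supported Hamiltonian homeomorphisms of the open unit ball of `ℝ^{2n}`.
In `Pool/Agent/Run7/h575/HD/{Defs,Defs2}.lean`: `HamBall n r` is the group of the compactly supported
Hamiltonian homeomorphisms of the concentric ball of radius `r` (the conjugates of the elements of
`HamHomeo n` by the dilation `x ↦ r x`); `ForSmallBall n P`: `P (HamBall n r)` holds for some
`0 < r ≤ 1`; `Pw Y m`: the products of `m` elements of `Y`; `Conjs g`: the conjugates of `g` and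
`g⁻¹`; `IsConjNorm ν`: `ν` is subadditive, symmetric and conjugation invariant.
`IsHomogeneousQuasimorphism`: `Pool/Agent/Y453/HB/Fin.lean`.

Proof. Let `G(K)` be the Polish group of the uniform limits of Hamiltonian diffeomorphisms supported
in the compact set `K`. If the Hamiltonian homeomorphisms of a small ball are products of
commutators, then a category argument in the Cantor space of the infinite products of a sequence
which converges to `1` (the sets of the products of `m` commutators of elements of `G(K')` are
analytic, so have the property of Baire) gives an `m` such that the elements of a possibly smaller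
ball are products of `m` commutators. After one more dilation the supports can be displaced `m`
times, and the trick of Burago, Ivanov and Polterovich gives two commutators `⁅F, F'⁆ ⁅Y, ψ⁆`
with one fixed `ψ`, which is a commutator of smooth Hamiltonian diffeomorphisms.
-/

set_option autoImplicit false

open Run7.h575.HD
open Pool.Agent.R773.HN (HamHomeo)

namespace Pool.Agent.Results.MP_68f289_gt.TwoCommutators

/-- Let `n ≥ 1` and let `G = HamHomeo n` be the group of compactly supported Hamiltonian
homeomorphisms of the open unit ball of `ℝ^{2n}`. The following conditions are equivalent:

1. for some `r > 0` the Hamiltonian homeomorphisms of the ball `B(r)` are products of commutators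
   of elements of `G`;
2. for some `r > 0` they are products of TWO commutators of elements of `G`;
3. for some `r > 0` they belong to every nontrivial normal subgroup of `G`;
4. for some `r > 0`, for every `g ≠ 1` in `G` there is an `m` such that all of them are products of
   `m` conjugates of `g` and `g⁻¹`.

The conditions hold if `G` is perfect, in particular if `G` is simple. If they hold then for some
`r > 0` all conjugation invariant norms on `G` are bounded on the group of Hamiltonian homeomorphisms
of `B(r)`, and all homogeneous quasimorphisms on `G` vanish there. -/
theorem result (n : ℕ) (hn : 0 < n) :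
    List.TFAE [InCommutators n, InTwoCommutators n, InAllNormal n, InConjugates n] ∧
    (IsSimpleGroup (HamHomeo n) → commutator (HamHomeo n) = ⊤) ∧
    (commutator (HamHomeo n) = ⊤ → InTwoCommutators n) ∧
    (InTwoCommutators n → NormsBounded n) := by
  have h1 : List.TFAE [InCommutators n, InTwoCommutators n, InAllNormal n, InConjugates n] :=
    tfae (n := n) hn
  have h2 : commutator (HamHomeo n) = ⊤ → InCommutators n := by
    intro h
    refine ⟨1, one_pos, le_rfl, fun φ _ => ?_⟩
    rw [h]
    exact Subgroup.mem_top φ
  refine ⟨h1, fun h => simple_perfect (n := n) hn h, fun h => (h1.out 0 1).1 (h2 h), fun h => ?_⟩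
  obtain ⟨r, hr, hr1, h⟩ := (h1.out 0 1).2 h
  obtain ⟨s, hs, hs1, h3, h4⟩ := norms (n := n) hn hr hr1 h
  exact ⟨s, hs, hs1, h3, h4⟩

end Pool.Agent.Results.MP_68f289_gt.TwoCommutators
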